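import Pool.Agent.Helper17.AB.MainB

/-!
Conway's map `T` (`T (2n) = 3n`, `T (4n+1) = 3n+1`, `T (4n-1) = 3n-1`). A set of natural numbers whose members are recognised
by a finite automaton reading base `2^a 3^b` digits, and which `T` maps into itself, is finite or has finite complement.
-/

namespace Pool.Agent.Results.MP_190a72_nt.AutomaticSets

/-- Automatic sets (almost) mapped into themselves by Conway's map are finite or cofinite. -/
theorem result (a b : ℕ) (hab : 1 ≤ a + b) (L : Language ℕ) (hL : L.IsRegular) (S : Set ℕ)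
    (hS : ∀ n, n ∈ S ↔ Nat.digits (2 ^ a * 3 ^ b) n ∈ L)
    (hT : {n | n ∈ S ∧ (fun m : ℕ => if m % 2 = 0 then 3 * m / 2
        else if m % 4 = 1 then (3 * m + 1) / 4 else (3 * m - 1) / 4) n ∉ S}.Finite) :
    (S.Finite ∨ Sᶜ.Finite) ∧
      ((∀ n ∈ S, (fun m : ℕ => if m % 2 = 0 then 3 * m / 2
        else if m % 4 = 1 then (3 * m + 1) / 4 else (3 * m - 1) / 4) n ∈ S) →
      ∀ n, (fun m : ℕ => if m % 2 = 0 then 3 * m / 2
        else if m % 4 = 1 then (3 * m + 1) / 4 else (3 * m - 1) / 4) n ∈ S ↔ n ∈ S) := by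
  have h1 := Pool.Agent.Helper17.AB.main hab hL hS hT
  exact ⟨h1, fun h n => Pool.Agent.Helper17.AB.inv h1 h n⟩

end Pool.Agent.Results.MP_190a72_nt.AutomaticSets
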